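import Pool.Agent.H360R2.RG.Stubs
import Pool.Agent.H403R2.LGLocalA

open Complex Filter Topology Set MeasureTheory

namespace RGap

open SG (hh nn dd dl ord NZ)
open SP (RHs ZZ mu wt Mk Par Eb PS chi qq tt)

theorem ORDL_proof : ORDL := by
  intro T t ρ X k hT hk hρ hX hTt hn1 hlt
  set n := NZ (t - ρ) with hn
  have ha : ord n ≤ t - ρ := LG.LocAux.ord_NZ_le hn1
  have hb : t + ρ < ord (n + k) := by
    by_contra hcon
    push Not at hcon
    have := (SG.ord_le_iff (by omega) _).mp hcon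
    omega
  refine ⟨by linarith, by linarith, by linarith, ?_⟩
  by_cases h1 : ∃ j : ℕ, j < k ∧ ∀ z ∈ ZZ T, X < |z.im - (t + (3 * j + 1) * X)|
  · exact Or.inr (Or.inl h1)
  by_cases h2 : ∃ j : ℕ, j < k ∧ ∀ z ∈ ZZ T, X < |z.im - (t - (3 * j + 1) * X)|
  · exact Or.inr (Or.inr h2)
  left
  push Not at h1 h2
  -- upward zeros
  have hup : ∀ j : ℕ, j < k → ∃ z ∈ ZZ T, t + 3 * j * X ≤ z.im ∧ z.im ≤ t + (3 * j + 2) * X ∧
      n + (j + 1) ≤ NZ z.im := by
    intro j
    induction j with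
    | zero =>
      intro hj
      obtain ⟨z, hz, hz1⟩ := h1 0 hj
      rw [abs_le] at hz1
      push_cast at hz1 ⊢
      have hlow : t + 3 * 0 * X ≤ z.im := by linarith [hz1.1]
      refine ⟨z, hz, hlow, by linarith [hz1.2], ?_⟩
      obtain ⟨z1, z2, z3, z4, z5⟩ := hz
      have hpos : 0 < z.im := by linarith
      have hm := SG.zmult_pos hpos z5
      have := SG.jump_one z5 z1 z2 hpos (t - ρ) (by linarith)
      omega
    | succ j ih =>
      intro hj
      obtain ⟨w, hw, hw1, hw2, hw3⟩ := ih (by omega)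
      obtain ⟨z, hz, hz1⟩ := h1 (j + 1) hj
      rw [abs_le] at hz1
      push_cast at hz1 ⊢
      have hlow : t + 3 * ((j : ℝ) + 1) * X ≤ z.im := by nlinarith [hz1.1]
      refine ⟨z, hz, hlow, by nlinarith [hz1.2], ?_⟩
      obtain ⟨z1, z2, z3, z4, z5⟩ := hz
      have hpos : 0 < z.im := by linarith
      have hm := SG.zmult_pos hpos z5
      have := SG.jump_one z5 z1 z2 hpos w.im (by nlinarith)
      omega
  -- downward zeros : `NZ` counts from below
  by_contra hcon
  push Not at hcon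
  obtain ⟨z, hz, hz1, hz2, hz3⟩ := hup (k - 1) (by omega)
  have hkc : ((k - 1 : ℕ) : ℝ) = k - 1 := by
    rw [Nat.cast_sub hk]; norm_num
  rw [hkc] at hz1 hz2
  have hz4 : ord (n + k) ≤ z.im := (SG.ord_le_iff (by omega) _).mpr (by omega)
  have hordn : ord n < t - (3 * k - 1) * X := by nlinarith
  have hdown : ∀ i : ℕ, i < k → ∃ z ∈ ZZ T, t - (3 * ((k : ℝ) - 1 - i) + 2) * X ≤ z.im ∧
      z.im ≤ t - 3 * ((k : ℝ) - 1 - i) * X ∧ n + (i + 1) ≤ NZ z.im := by
    intro i
    induction i with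
    | zero =>
      intro hi
      obtain ⟨z, hz, hz1⟩ := h2 (k - 1) (by omega)
      rw [abs_le, hkc] at hz1
      push_cast
      have hlow : t - (3 * ((k : ℝ) - 1 - 0) + 2) * X ≤ z.im := by nlinarith [hz1.1]
      refine ⟨z, hz, hlow, by nlinarith [hz1.2], ?_⟩
      obtain ⟨z1, z2, z3, z4, z5⟩ := hz
      have hpos : 0 < z.im := by linarith
      have hm := SG.zmult_pos hpos z5
      have h6 := SG.jump_one z5 z1 z2 hpos (ord n) (by nlinarith)
      have h7 := SG.le_NZ_ord hn1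
      omega
    | succ i ih =>
      intro hi
      obtain ⟨w, hw, hw1, hw2, hw3⟩ := ih (by omega)
      obtain ⟨z, hz, hz1⟩ := h2 (k - 1 - (i + 1)) (by omega)
      have hc : ((k - 1 - (i + 1) : ℕ) : ℝ) = (k : ℝ) - 1 - (i + 1) := by
        rw [Nat.cast_sub (by omega), Nat.cast_sub hk]; push_cast; ring
      rw [abs_le, hc] at hz1
      push_cast
      have hlow : t - (3 * ((k : ℝ) - 1 - (i + 1)) + 2) * X ≤ z.im := by nlinarith [hz1.1]
      refine ⟨z, hz, hlow, by nlinarith [hz1.2], ?_⟩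
      obtain ⟨z1, z2, z3, z4, z5⟩ := hz
      have hpos : 0 < z.im := by linarith
      have hm := SG.zmult_pos hpos z5
      have := SG.jump_one z5 z1 z2 hpos w.im (by nlinarith)
      omega
  obtain ⟨w, hw, hw1, hw2, hw3⟩ := hdown (k - 1) (by omega)
  rw [hkc] at hw2
  have h8 := SG.NZ_mono (show w.im ≤ t + ρ by nlinarith)
  omega

theorem ORDS_proof : ORDS := by
  intro t ρ k hρ h
  have h1 : t - ρ < ord (NZ (t - ρ) + 1) := LG.LocAux.lt_ord_NZ _
  have h2 : ord (NZ (t - ρ) + 1) ≤ t + ρ := (SG.ord_le_iff (by omega) _).mpr (by omega)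
  have h3 : ord (NZ (t - ρ) + 1 + k) ≤ t + ρ := (SG.ord_le_iff (by omega) _).mpr (by omega)
  exact ⟨h1, h2, by linarith⟩

end RGap
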