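import Pool.Agent.H360R2.RG.Stubs
import Pool.Agent.Helper7.OT.Sinc

open Complex Filter Topology Set MeasureTheory

namespace RGap

theorem SINCL_proof : SINCL := by
  have hint : Integrable (fun t : ℝ => Real.sinc (Real.pi * t) ^ 2) :=
    Pool.Agent.Helper7.Simplex.OT.J26884.sinc_fourier_int
  have h1 : ∫ t : ℝ, Real.sinc (Real.pi * t) ^ 2 = 1 := by
    have := (Pool.Agent.Helper7.Simplex.OT.J26884.sinc_fourier 0).2
    simpa using this
  have hint2 : Integrable (fun t : ℝ => Real.sinc t ^ 2) :=
    (integrable_comp_mul_left_iff (fun t : ℝ => Real.sinc t ^ 2) Real.pi_ne_zero).1 hint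
  have h2 : ∫ t : ℝ, Real.sinc t ^ 2 = Real.pi := by
    have h := Measure.integral_comp_mul_left (fun t : ℝ => Real.sinc t ^ 2) Real.pi
    rw [h1, abs_of_pos (inv_pos.2 Real.pi_pos), smul_eq_mul] at h
    have hpi := Real.pi_ne_zero
    field_simp at h
    linarith
  have h3 : ∫ t in Ioi (0:ℝ), Real.sinc t ^ 2 = Real.pi / 2 := by
    have h := integral_comp_abs (f := fun t : ℝ => Real.sinc t ^ 2)
    have h' : ∀ t : ℝ, Real.sinc |t| ^ 2 = Real.sinc t ^ 2 := by
      intro t
      rcases abs_choice t with ht | ht <;> rw [ht]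
      rw [Real.sinc_neg]
    simp_rw [h'] at h
    rw [h2] at h
    linarith
  refine ⟨?_, ?_⟩
  · have := intervalIntegral_tendsto_integral_Ioi (0:ℝ) (hint2.integrableOn (s := Ioi (0:ℝ)))
      (tendsto_id (α := ℝ) (x := atTop))
    rw [h3] at this
    exact this
  · intro Y hY
    rw [intervalIntegral.integral_of_le hY, ← h3]
    exact setIntegral_mono_set hint2.integrableOn
      (Filter.Eventually.of_forall fun t => sq_nonneg _) (Ioc_subset_Ioi_self.eventuallyLE)

end RGap
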