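import Pool.Agent.H360R2.RG.Stubs
import Pool.Agent.H403R2.LGLocalA

open Complex Filter Topology Set MeasureTheory

namespace RGap

open SG (hh nn dd dl ord NZ)
open SP (RHs ZZ mu wt Mk Par Eb PS chi qq tt)
open LG (gK gh Zs)

namespace ZUaux

lemma gi (a y : ℝ) (ha : 0 < a) : Integrable (fun u : ℝ => Real.exp (-(a * (u - y) ^ 2))) := by
  have h := (integrable_exp_neg_mul_sq ha).comp_sub_right y
  refine h.congr (Eventually.of_forall fun u => ?_)
  simp only
  congr 1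
  ring

lemma gv (a y : ℝ) : ∫ u : ℝ, Real.exp (-(a * (u - y) ^ 2)) = Real.sqrt (Real.pi / a) := by
  have h := integral_gaussian a
  rw [← h, ← integral_sub_right_eq_self (fun u : ℝ => Real.exp (-a * u ^ 2)) y]
  congr 1
  ext u
  congr 1
  ring

lemma gK_int (A x : ℝ) (hA : 0 < A) :
    Integrable (fun y : ℝ => A / Real.sqrt (2 * Real.pi) * Real.exp (-(A * (x - y)) ^ 2 / 2)) := by
  apply Integrable.const_mul
  refine (gi (A ^ 2 / 2) x (by positivity)).congr (Eventually.of_forall fun y => ?_)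
  simp only
  congr 1
  ring

lemma gK_tot (A x : ℝ) (hA : 0 < A) :
    ∫ y : ℝ, A / Real.sqrt (2 * Real.pi) * Real.exp (-(A * (x - y)) ^ 2 / 2) = 1 := by
  rw [integral_const_mul]
  have h1 : ∫ y : ℝ, Real.exp (-(A * (x - y)) ^ 2 / 2) =
      ∫ y : ℝ, Real.exp (-(A ^ 2 / 2 * (y - x) ^ 2)) := by
    congr 1
    ext y
    congr 1
    ring
  rw [h1, gv]
  have h2 : Real.pi / (A ^ 2 / 2) = (2 * Real.pi) / A ^ 2 := by field_simp
  rw [h2, Real.sqrt_div (by positivity), Real.sqrt_sq hA.le]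
  have : 0 < Real.sqrt (2 * Real.pi) := Real.sqrt_pos.2 (by positivity)
  field_simp

theorem gK_bounds (A c x : ℝ) (hA : 0 < A) (hc : 0 < c) : 0 ≤ gK A c x ∧ gK A c x ≤ 1 := by
  have hπ := Real.pi_pos
  have hle : -(Real.pi * c) ≤ Real.pi * c := by
    have : 0 < Real.pi * c := by positivity
    linarith
  unfold LG.gK
  constructor
  · apply intervalIntegral.integral_nonneg hle
    intro y _
    positivity
  · rw [← gK_tot A x hA, intervalIntegral.integral_of_le hle]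
    exact setIntegral_le_integral (gK_int A x hA)
      (Eventually.of_forall fun y => by positivity)

/-- decay of the kernel -/
theorem gK_decay (c1 c2 e : ℝ) (h1 : 0 < c1) (h12 : c1 < c2) (he : 0 < e) : ∃ A0 : ℝ, 0 < A0 ∧
    ∀ A : ℝ, A0 ≤ A → ∀ x : ℝ, Real.pi * c2 ≤ |x| → gK A c1 x ≤ e / (1 + x ^ 2) := by
  have hπ := Real.pi_pos
  have h2 : 0 < c2 := h1.trans h12
  set β := 1 - c1 / c2 with hβ
  have hβ0 : 0 < β := by
    have : c1 / c2 < 1 := (div_lt_one h2).2 h12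
    linarith
  set b := (Real.pi * c2) ^ 2 with hb
  have hb0 : 0 < b := by positivity
  set A0 := max 1 (16 * Real.pi * c1 * (1 / b ^ 2 + 1 / b) / (e * β ^ 4)) with hA0
  refine ⟨A0, lt_of_lt_of_le one_pos (le_max_left _ _), fun A hA x hx => ?_⟩
  have hA1 : 1 ≤ A := (le_max_left _ _).trans hA
  have hA2 : 16 * Real.pi * c1 * (1 / b ^ 2 + 1 / b) / (e * β ^ 4) ≤ A :=
    (le_max_right _ _).trans hA
  have hApos : 0 < A := by linarith
  have hx0 : 0 < |x| := lt_of_lt_of_le (by positivity) hx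
  have hxb : b ≤ x ^ 2 := by
    rw [hb, ← sq_abs x]
    exact pow_le_pow_left₀ (by positivity) hx 2
  have hx2 : 0 < x ^ 2 := lt_of_lt_of_le hb0 hxb
  have hle : -(Real.pi * c1) ≤ Real.pi * c1 := by
    have : 0 < Real.pi * c1 := by positivity
    linarith
  -- pointwise bound
  have hpt : ∀ y ∈ Icc (-(Real.pi * c1)) (Real.pi * c1),
      A / Real.sqrt (2 * Real.pi) * Real.exp (-(A * (x - y)) ^ 2 / 2) ≤
        8 / (A ^ 3 * β ^ 4 * (x ^ 2) ^ 2) := by
    intro y hy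
    have hy' : |y| ≤ Real.pi * c1 := abs_le.2 hy
    have h3 : β * |x| ≤ |x - y| := by
      have h4 : |x| - |y| ≤ |x - y| := abs_sub_abs_le_abs_sub x y
      have h5 : Real.pi * c1 ≤ c1 / c2 * |x| := by
        calc Real.pi * c1 = c1 / c2 * (Real.pi * c2) := by field_simp
          _ ≤ c1 / c2 * |x| := by gcongr
      have h6 : β * |x| = |x| - c1 / c2 * |x| := by rw [hβ]; ring
      linarith
    have h4 : β ^ 2 * x ^ 2 ≤ (x - y) ^ 2 := by
      have := pow_le_pow_left₀ (by positivity) h3 2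
      rw [mul_pow, sq_abs, sq_abs] at this
      exact this
    set u := A ^ 2 * β ^ 2 * x ^ 2 / 2 with hu
    have hu0 : 0 < u := by positivity
    have h5 : Real.exp (-(A * (x - y)) ^ 2 / 2) ≤ Real.exp (-u) := by
      apply Real.exp_le_exp.2
      rw [hu]
      have : A ^ 2 * (β ^ 2 * x ^ 2) ≤ A ^ 2 * (x - y) ^ 2 := by gcongr
      nlinarith
    have h6 : Real.exp (-u) ≤ 2 / u ^ 2 := by
      rw [Real.exp_neg, inv_eq_one_div, div_le_div_iff₀ (Real.exp_pos u) (by positivity)]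
      have := Real.quadratic_le_exp_of_nonneg hu0.le
      linarith
    have h7 : A / Real.sqrt (2 * Real.pi) ≤ A := by
      apply div_le_self hApos.le
      rw [Real.one_le_sqrt]
      have := Real.pi_gt_three
      linarith
    calc A / Real.sqrt (2 * Real.pi) * Real.exp (-(A * (x - y)) ^ 2 / 2) ≤ A * (2 / u ^ 2) := by
          gcongr
          exact h5.trans h6
      _ = 8 / (A ^ 3 * β ^ 4 * (x ^ 2) ^ 2) := by
          rw [hu]
          field_simp
          ring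
  have hint : gK A c1 x ≤ 2 * (Real.pi * c1) * (8 / (A ^ 3 * β ^ 4 * (x ^ 2) ^ 2)) := by
    unfold LG.gK
    calc ∫ y in (-(Real.pi * c1))..(Real.pi * c1),
        A / Real.sqrt (2 * Real.pi) * Real.exp (-(A * (x - y)) ^ 2 / 2)
        ≤ ∫ y in (-(Real.pi * c1))..(Real.pi * c1), 8 / (A ^ 3 * β ^ 4 * (x ^ 2) ^ 2) := by
          apply intervalIntegral.integral_mono_on hle
          · exact ((gK_int A x hApos).intervalIntegrable)
          · exact intervalIntegrable_const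
          · exact hpt
      _ = 2 * (Real.pi * c1) * (8 / (A ^ 3 * β ^ 4 * (x ^ 2) ^ 2)) := by
          rw [intervalIntegral.integral_const, smul_eq_mul]
          ring
  refine hint.trans ?_
  rw [le_div_iff₀ (by positivity)]
  -- (1 + x²)/x⁴ ≤ 1/b² + 1/b
  have h8 : (1 + x ^ 2) / (x ^ 2) ^ 2 ≤ 1 / b ^ 2 + 1 / b := by
    have e1 : (1 + x ^ 2) / (x ^ 2) ^ 2 = 1 / (x ^ 2) ^ 2 + 1 / x ^ 2 := by
      field_simp
    rw [e1]
    gcongr
  have h9 : 16 * Real.pi * c1 * (1 / b ^ 2 + 1 / b) ≤ A * (e * β ^ 4) := by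
    rwa [div_le_iff₀ (by positivity)] at hA2
  have h10 : A ≤ A ^ 3 := by nlinarith [sq_nonneg A, mul_pos hApos hApos]
  calc 2 * (Real.pi * c1) * (8 / (A ^ 3 * β ^ 4 * (x ^ 2) ^ 2)) * (1 + x ^ 2)
      = (16 * Real.pi * c1) * ((1 + x ^ 2) / (x ^ 2) ^ 2) / (A ^ 3 * β ^ 4) := by
        field_simp
        ring
    _ ≤ (16 * Real.pi * c1) * (1 / b ^ 2 + 1 / b) / (A ^ 3 * β ^ 4) := by gcongr
    _ ≤ (A * (e * β ^ 4)) / (A ^ 3 * β ^ 4) := by gcongr
    _ ≤ (A ^ 3 * (e * β ^ 4)) / (A ^ 3 * β ^ 4) := by gcongr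
    _ = e := by field_simp

theorem ZZ_fin (T : ℝ) (hT : 1 ≤ T) : (ZZ T).Finite :=
  H370.zset_finite H370.good_zeta T (2 * T) hT

theorem Zs_eq (A c T t : ℝ) (hT : 1 ≤ T) : Zs A c T t = ∑ s ∈ (ZZ_fin T hT).toFinset,
    (mu s : ℝ) * Real.exp (-(s.im - t) ^ 2 / 2) * gK A c (Real.log T * (s.im - t)) :=
  finsum_mem_eq_finite_toFinset_sum _ (ZZ_fin T hT)

theorem Mk_eq (T k t : ℝ) (hT : 1 ≤ T) : Mk T k t = ∑ s ∈ (ZZ_fin T hT).toFinset,
    (mu s : ℝ) * Real.exp (-(s.im - t) ^ 2 / 2) / (1 + (Real.log T * (s.im - t) / k) ^ 2) :=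
  finsum_mem_eq_finite_toFinset_sum _ (ZZ_fin T hT)

end ZUaux

open ZUaux in
theorem ZUP_proof : ZUP := by
  classical
  intro c1 c2 e h1 h12 he
  obtain ⟨A0, hA0, hdec⟩ := gK_decay c1 c2 e h1 h12 he
  refine ⟨A0, hA0, fun A hA => ⟨10, le_refl _, fun T hT t ht1 ht2 => ?_⟩⟩
  have hApos : 0 < A := lt_of_lt_of_le hA0 hA
  have hT1 : 1 ≤ T := by linarith
  have hπ := Real.pi_pos
  have hc2 : 0 < c2 := h1.trans h12
  have hL0 : 0 < Real.log T := Real.log_pos (by linarith)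
  set ρ := Real.pi * c2 / Real.log T with hρ
  have hρ0 : 0 < ρ := by positivity
  rw [Zs_eq A c1 T t hT1, Mk_eq T 1 t hT1, Finset.mul_sum]
  set S := (ZZ_fin T hT1).toFinset with hS
  have hmem : ∀ s ∈ S, s ∈ ZZ T := fun s hs => by rwa [hS, Set.Finite.mem_toFinset] at hs
  -- the number of zeros in the window
  have hNN : ∑ s ∈ S.filter (fun s => t - ρ < s.im ∧ s.im ≤ t + ρ), (mu s : ℝ) ≤ NN ρ t := by
    have hadd := SG.NZ_add_le (t - ρ) (t + ρ) (by linarith)
      (S.filter (fun s => t - ρ < s.im ∧ s.im ≤ t + ρ)) (by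
        intro s hs
        rw [Finset.mem_filter] at hs
        obtain ⟨hs1, hs2, hs3⟩ := hs
        obtain ⟨z1, z2, z3, z4, z5⟩ := hmem s hs1
        exact ⟨⟨z5, z1, z2, by linarith, hs3⟩, hs2⟩)
    unfold NN
    have hadd' : (NZ (t - ρ) : ℝ) + ∑ s ∈ S.filter (fun s => t - ρ < s.im ∧ s.im ≤ t + ρ),
        (mu s : ℝ) ≤ (NZ (t + ρ) : ℝ) := by
      have : ((NZ (t - ρ) + ∑ s ∈ S.filter (fun s => t - ρ < s.im ∧ s.im ≤ t + ρ),
        SG.zmult s : ℕ) : ℝ) ≤ (NZ (t + ρ) : ℝ) := by exact_mod_cast hadd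
      push_cast at this
      exact this
    linarith
  refine le_trans ?_ (add_le_add_left hNN _)
  rw [Finset.sum_filter, ← Finset.sum_add_distrib]
  refine Finset.sum_le_sum fun s hs => ?_
  have hb := gK_bounds A c1 (Real.log T * (s.im - t)) hApos h1
  have hexp1 : Real.exp (-(s.im - t) ^ 2 / 2) ≤ 1 := by
    rw [Real.exp_le_one_iff]
    nlinarith [sq_nonneg (s.im - t)]
  have hexp0 := Real.exp_pos (-(s.im - t) ^ 2 / 2)
  have hmu : (0 : ℝ) ≤ (mu s : ℝ) := Nat.cast_nonneg _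
  have hMk : 0 ≤ e * ((mu s : ℝ) * Real.exp (-(s.im - t) ^ 2 / 2) /
      (1 + (Real.log T * (s.im - t) / 1) ^ 2)) := by positivity
  by_cases hw : t - ρ < s.im ∧ s.im ≤ t + ρ
  · rw [if_pos hw]
    have : (mu s : ℝ) * Real.exp (-(s.im - t) ^ 2 / 2) * gK A c1 (Real.log T * (s.im - t)) ≤
        (mu s : ℝ) * 1 * 1 :=
      mul_le_mul (mul_le_mul_of_nonneg_left hexp1 hmu) hb.2 hb.1 (by positivity)
    linarith
  · rw [if_neg hw, zero_add]
    have hfar : Real.pi * c2 ≤ |Real.log T * (s.im - t)| := by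
      rw [abs_mul, abs_of_pos hL0]
      have h3 : ρ ≤ |s.im - t| := by
        rw [not_and_or, not_lt, not_le] at hw
        rw [le_abs]
        rcases hw with hw | hw
        · right; linarith
        · left; linarith
      calc Real.pi * c2 = Real.log T * ρ := by rw [hρ]; field_simp
        _ ≤ Real.log T * |s.im - t| := by gcongr
    have h4 := hdec A hA _ hfar
    calc (mu s : ℝ) * Real.exp (-(s.im - t) ^ 2 / 2) * gK A c1 (Real.log T * (s.im - t))
        ≤ (mu s : ℝ) * Real.exp (-(s.im - t) ^ 2 / 2) *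
          (e / (1 + (Real.log T * (s.im - t)) ^ 2)) := by gcongr
      _ = e * ((mu s : ℝ) * Real.exp (-(s.im - t) ^ 2 / 2) /
          (1 + (Real.log T * (s.im - t) / 1) ^ 2)) := by
          rw [div_one]
          ring

end RGap
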